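import Pool.Agent.Helper82.AH.Props
import Pool.Agent.Helper10.RC.Basic

/-!
# MP_b55b7c_an: packet AH-QM, quasitraces are monotone
-/

open scoped ENNReal NNReal InnerProductSpace ComplexOrder
open Filter Topology

attribute [-instance] CStarMatrix.instAlgebra CStarMatrix.instModule CStarMatrix.instSMul
  CStarMatrix.instMulAction CStarMatrix.instDistribMulAction

set_option linter.unusedSectionVars false

noncomputable section
namespace RC
universe u

section
variable {A : Type u} [CStarAlgebra A] [PartialOrder A] [StarOrderedRing A]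
variable {ι : Type} [Fintype ι] [DecidableEq ι]

/-- one layer -/
def lyr5 (h : ℝ) (j : ℕ) (t : ℝ) : ℝ := max 0 (min h (t - j * h))

/-- sum of the layers -/
def tru5 (h : ℝ) (J : ℕ) (t : ℝ) : ℝ := max 0 (min t (J * h))

theorem lyr5_cont (h : ℝ) (j : ℕ) : Continuous (lyr5 h j) := by
  unfold lyr5; fun_prop

theorem tru5_cont (h : ℝ) (j : ℕ) : Continuous (tru5 h j) := by
  unfold tru5; fun_prop

theorem lyr5_nonneg (h : ℝ) (j : ℕ) (t : ℝ) : 0 ≤ lyr5 h j t := le_max_left _ _

theorem tru5_nonneg (h : ℝ) (j : ℕ) (t : ℝ) : 0 ≤ tru5 h j t := le_max_left _ _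

theorem tru5_succ {h : ℝ} (hh : 0 < h) (J : ℕ) (t : ℝ) :
    tru5 h (J + 1) t = tru5 h J t + lyr5 h J t := by
  unfold tru5 lyr5
  push_cast
  have hJ : (0 : ℝ) ≤ J := Nat.cast_nonneg J
  have hJh : (0 : ℝ) ≤ J * h := by positivity
  have e : ((J : ℝ) + 1) * h = J * h + h := by ring
  rw [e]
  rcases le_total t (J * h) with h1 | h1
  · rw [min_eq_left h1, min_eq_left (by linarith : t ≤ J * h + h),
      min_eq_right (by linarith : t - J * h ≤ h), max_eq_left (by linarith : t - J * h ≤ 0),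
      add_zero]
  · rw [min_eq_right h1, max_eq_right hJh]
    rcases le_total t (J * h + h) with h2 | h2
    · rw [min_eq_left h2, min_eq_right (by linarith : t - J * h ≤ h),
        max_eq_right (by linarith : (0 : ℝ) ≤ t - J * h), max_eq_right (by linarith : (0 : ℝ) ≤ t)]
      ring
    · rw [min_eq_right h2, min_eq_left (by linarith : h ≤ t - J * h),
        max_eq_right hh.le, max_eq_right (by linarith : (0 : ℝ) ≤ J * h + h)]

theorem layer5 (σ : QTrace A) {a : CStarMatrix ι ι A} {h : ℝ} (hh : 0 < h)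
    (J : ℕ) : σ.τ ι (cfc (tru5 h J) a) = ∑ j ∈ Finset.range J, σ.τ ι (cfc (lyr5 h j) a) := by
  induction J with
  | zero =>
    have h0 : tru5 h 0 = fun _ : ℝ => (0 : ℝ) := by
      funext t
      simp [tru5]
    rw [h0, cfc_const_zero, σ.zero]
    simp
  | succ J ih =>
    rw [Finset.sum_range_succ, ← ih]
    have h0 : tru5 h (J + 1) = fun t => tru5 h J t + lyr5 h J t := by
      funext t
      exact tru5_succ hh J t
    rw [h0]
    exact σ.cfc_add (tru5_cont h J).continuousOn (lyr5_cont h J).continuousOn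
      (fun t _ => tru5_nonneg h J t) (fun t _ => lyr5_nonneg h J t)

theorem cfc_cut5 {a : CStarMatrix ι ι A} (s : ℝ) (n : ℕ) (ha : 0 ≤ a) :
    cfc (fun t : ℝ => min 1 ((n : ℝ) * t)) (cut a s) =
      cfc (fun t : ℝ => min 1 ((n : ℝ) * max (t - s) 0)) a := by
  unfold cut
  rw [← cfc_comp' (fun t : ℝ => min 1 ((n : ℝ) * t)) (fun x : ℝ => max (x - s) 0) a]

theorem upper5 (hB : QBasicP.{u}) (σ : QTrace A) {a : CStarMatrix ι ι A} (ha : 0 ≤ a) {h : ℝ}
    (hh : 0 < h) (j : ℕ) : σ.τ ι (cfc (lyr5 h j) a) ≤ h * σ.dim (cut a (j * h)) := by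
  obtain ⟨n, hn⟩ := exists_nat_ge (1 / h)
  have h1 : σ.τ ι (cfc (fun t : ℝ => min 1 ((n : ℝ) * t)) (cut a (j * h))) ≤
      σ.dim (cut a (j * h)) := by
    have := (hB A σ ι (cut a (j * h)) (cut_nonneg _ _)).1
    exact le_ciSup this n
  refine le_trans ?_ (mul_le_mul_of_nonneg_left h1 hh.le)
  rw [cfc_cut5 _ _ ha, ← σ.cfc_smul (by fun_prop) _ hh.le]
  · refine σ.cfc_mono (lyr5_cont h j).continuousOn (by fun_prop) (fun t _ => lyr5_nonneg h j t) ?_
    intro t _
    unfold lyr5
    rcases le_total t (j * h) with h2 | h2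
    · rw [max_eq_left (min_le_of_right_le (by linarith)), max_eq_right (by linarith)]
      simp
    · rw [max_eq_left (by linarith : (0 : ℝ) ≤ t - j * h), mul_min_of_nonneg _ _ hh.le]
      refine max_le ?_ ?_
      · refine le_min (by linarith) ?_
        have : (0 : ℝ) ≤ n := Nat.cast_nonneg n
        have h3 : 0 ≤ t - j * h := by linarith
        positivity
      · refine le_min ((min_le_left _ _).trans (by linarith)) ?_
        refine (min_le_right _ _).trans ?_
        have h3 : 0 ≤ t - j * h := by linarith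
        have h4 : 1 ≤ h * n := by
          rw [div_le_iff₀ hh] at hn
          linarith
        nlinarith
  · intro t _
    refine le_min (by norm_num) ?_
    have : (0 : ℝ) ≤ n := Nat.cast_nonneg n
    have h3 : 0 ≤ max (t - j * h) 0 := le_max_right _ _
    positivity

theorem lower5 (σ : QTrace A) {b : CStarMatrix ι ι A} (hb : 0 ≤ b) {h : ℝ}
    (hh : 0 < h) (j : ℕ) : h * σ.dim (cut b ((j + 1 : ℕ) * h)) ≤ σ.τ ι (cfc (lyr5 h j) b) := by
  have key : ∀ n : ℕ, σ.τ ι (cfc (fun t : ℝ => min 1 ((n : ℝ) * t)) (cut b ((j + 1 : ℕ) * h))) ≤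
      σ.τ ι (cfc (lyr5 h j) b) / h := by
    intro n
    rw [le_div_iff₀ hh, mul_comm, cfc_cut5 _ _ hb, ← σ.cfc_smul (by fun_prop) _ hh.le]
    · refine σ.cfc_mono (by fun_prop) (lyr5_cont h j).continuousOn ?_ ?_
      · intro t _
        have : (0 : ℝ) ≤ n := Nat.cast_nonneg n
        have h3 : 0 ≤ max (t - ((j + 1 : ℕ) : ℝ) * h) 0 := le_max_right _ _
        have h4 : (0 : ℝ) ≤ min 1 ((n : ℝ) * max (t - ((j + 1 : ℕ) : ℝ) * h) 0) :=
          le_min (by norm_num) (by positivity)
        positivity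
      · intro t _
        have e : ((j + 1 : ℕ) : ℝ) * h = j * h + h := by push_cast; ring
        rcases le_total t (((j + 1 : ℕ) : ℝ) * h) with h2 | h2
        · rw [max_eq_right (by linarith)]
          simp only [mul_zero]
          rw [min_eq_right (by norm_num : (0 : ℝ) ≤ 1), mul_zero]
          exact lyr5_nonneg h j t
        · unfold lyr5
          rw [min_eq_left (by linarith : h ≤ t - j * h), max_eq_right hh.le]
          calc h * min 1 _ ≤ h * 1 := by
                exact mul_le_mul_of_nonneg_left (min_le_left _ _) hh.le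
            _ = h := mul_one h
    · intro t _
      refine le_min (by norm_num) ?_
      have : (0 : ℝ) ≤ n := Nat.cast_nonneg n
      have h3 : 0 ≤ max (t - ((j + 1 : ℕ) : ℝ) * h) 0 := le_max_right _ _
      positivity
  have h2 : σ.dim (cut b ((j + 1 : ℕ) * h)) ≤ σ.τ ι (cfc (lyr5 h j) b) / h := ciSup_le key
  rw [le_div_iff₀ hh] at h2
  linarith

end

/-- Packet AH-QM. -/
theorem tauMonoP_h5 (hB : QBasicP.{u}) (hM : QMonoP.{u}) (hL : CuLeAddP.{u}) : TauMonoP.{u} := by
  intro A _ _ _ σ ι _ _ a b ha hab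
  have hb : 0 ≤ b := ha.trans hab
  -- comparison of the cut-downs
  have hdim : ∀ t : ℝ, 0 ≤ t → σ.dim (cut a t) ≤ σ.dim (cut b t) := by
    intro t ht
    refine hM A σ ι ι _ _ (cut_nonneg _ _) (cut_nonneg _ _) ?_
    exact hL A ι a (cut b t) t ht ha (cut_nonneg _ _) (hab.trans (le_cut_add hb.isSelfAdjoint t))
  -- the estimate for one h
  have key : ∀ h : ℝ, 0 < h → σ.τ ι a ≤ h * Fintype.card ι + σ.τ ι b := by
    intro h hh
    obtain ⟨J, hJ⟩ := exists_nat_ge (‖a‖ * ‖(1 : CStarMatrix ι ι A)‖ / h)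
    have hJ' : ‖a‖ * ‖(1 : CStarMatrix ι ι A)‖ ≤ J * h := by rwa [div_le_iff₀ hh] at hJ
    have ea : cfc (tru5 h (J + 1)) a = a := by
      conv_rhs => rw [← cfc_id' ℝ a]
      refine cfc_congr fun t ht => ?_
      have h0 := spectrum_nonneg_of_nonneg ha ht
      have h1 : t ≤ ‖a‖ * ‖(1 : CStarMatrix ι ι A)‖ := by
        have := spectrum.norm_le_norm_mul_of_mem ht
        rwa [Real.norm_eq_abs, abs_of_nonneg h0] at this
      unfold tru5
      push_cast
      rw [min_eq_left (by linarith), max_eq_right h0]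
    have h1 : σ.τ ι a = ∑ j ∈ Finset.range (J + 1), σ.τ ι (cfc (lyr5 h j) a) := by
      rw [← layer5 σ hh, ea]
    have h2 : σ.τ ι a ≤ ∑ j ∈ Finset.range (J + 1), h * σ.dim (cut b (j * h)) := by
      rw [h1]
      refine Finset.sum_le_sum fun j _ => (upper5 hB σ ha hh j).trans ?_
      exact mul_le_mul_of_nonneg_left (hdim _ (by positivity)) hh.le
    rw [Finset.sum_range_succ'] at h2
    have h3 : h * σ.dim (cut b (((0 : ℕ) : ℝ) * h)) ≤ h * Fintype.card ι :=
      mul_le_mul_of_nonneg_left (hB A σ ι _ (cut_nonneg _ _)).2.2.1 hh.le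
    have h4 : ∑ j ∈ Finset.range J, h * σ.dim (cut b ((j + 1 : ℕ) * h)) ≤ σ.τ ι b := by
      calc ∑ j ∈ Finset.range J, h * σ.dim (cut b ((j + 1 : ℕ) * h))
          ≤ ∑ j ∈ Finset.range J, σ.τ ι (cfc (lyr5 h j) b) :=
            Finset.sum_le_sum fun j _ => lower5 σ hb hh j
        _ = σ.τ ι (cfc (tru5 h J) b) := (layer5 σ hh J).symm
        _ ≤ σ.τ ι (cfc (fun t : ℝ => t) b) := by
            refine σ.cfc_mono (tru5_cont h J).continuousOn (by fun_prop)
              (fun t _ => tru5_nonneg h J t) ?_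
            intro t ht
            have h0 := spectrum_nonneg_of_nonneg hb ht
            exact max_le h0 (min_le_left _ _)
        _ = σ.τ ι b := by rw [cfc_id' ℝ b]
    linarith
  refine le_of_forall_pos_le_add fun ε hε => ?_
  have hc : (0 : ℝ) ≤ Fintype.card ι := Nat.cast_nonneg _
  have h1 := key (ε / (Fintype.card ι + 1)) (by positivity)
  have h2 : ε / (Fintype.card ι + 1) * Fintype.card ι ≤ ε := by
    rw [div_mul_eq_mul_div, div_le_iff₀ (by positivity)]
    nlinarith
  linarith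

end RC
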